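import Pool.Agent.H699.MW.Defs

/-!
UNI: uniform continuity and uniform positivity of the law of the weights.
-/

set_option autoImplicit false

open MeasureTheory Finset
open scoped Classical

namespace Pool.Agent.H358.MW.UNI

open Pool.Agent.H699.MW

lemma part1 (μ : Measure ℝ) (a b : ℝ) (h : Good μ a b) (ε : ℝ) (hε : 0 < ε) :
    ∃ δ : ℝ, 0 < δ ∧ ∀ z, μ.real (Set.Icc z (z + δ)) ≤ ε := by
  have : IsProbabilityMeasure μ := ⟨h.prob⟩
  have hU : ∀ x : ℝ, ∃ U : Set ℝ, {x} ⊆ U ∧ IsOpen U ∧ μ U < ENNReal.ofReal ε := by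
    intro x
    obtain ⟨U, hU1, hU2, hU3⟩ := Set.exists_isOpen_lt_of_lt (μ := μ) ({x} : Set ℝ)
      (ENNReal.ofReal ε) (by rw [h.atoms x]; exact ENNReal.ofReal_pos.mpr hε)
    exact ⟨U, hU1, hU2, hU3⟩
  choose U hxU hUo hUm using hU
  obtain ⟨δ, hδ, hL⟩ := lebesgue_number_lemma_of_metric (s := Set.Icc a b) (c := U) isCompact_Icc hUo
    (fun x _ => Set.mem_iUnion.mpr ⟨x, hxU x rfl⟩)
  refine ⟨δ / 2, by positivity, ?_⟩
  intro z
  by_cases hz : ∃ x, x ∈ Set.Icc z (z + δ / 2) ∧ x ∈ Set.Icc a b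
  · obtain ⟨x, hx1, hx2⟩ := hz
    obtain ⟨i, hi⟩ := hL x hx2
    have hsub : Set.Icc z (z + δ / 2) ⊆ U i := by
      intro t ht
      refine hi ?_
      rw [Metric.mem_ball, Real.dist_eq, abs_lt]
      obtain ⟨h1, h2⟩ := ht
      obtain ⟨h3, h4⟩ := hx1
      constructor <;> linarith
    have h1 : μ (Set.Icc z (z + δ / 2)) ≤ ENNReal.ofReal ε := le_trans (measure_mono hsub) (hUm i).le
    have h2 := ENNReal.toReal_mono ENNReal.ofReal_ne_top h1
    rw [ENNReal.toReal_ofReal hε.le] at h2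
    exact h2
  · have hsub : Set.Icc z (z + δ / 2) ⊆ (Set.Icc a b)ᶜ := by
      intro t ht ht2
      exact hz ⟨t, ht, ht2⟩
    have h0 : μ (Set.Icc z (z + δ / 2)) = 0 := measure_mono_null hsub h.supp
    rw [Measure.real, h0, ENNReal.toReal_zero]
    exact hε.le

lemma part2 (μ : Measure ℝ) (a b : ℝ) (h : Good μ a b) (δ : ℝ) (hδ : 0 < δ) :
    ∃ p : ℝ, 0 < p ∧ ∀ x y, a ≤ x → x + δ ≤ y → y ≤ b → p ≤ μ.real (Set.Icc x y) := by
  have : IsProbabilityMeasure μ := ⟨h.prob⟩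
  have hab : 0 < b - a := sub_pos.mpr h.lt
  obtain ⟨n, hn⟩ := exists_nat_gt (2 * (b - a) / δ)
  have hn0 : (0 : ℝ) < n := lt_of_le_of_lt (by positivity) hn
  have hnpos : 0 < n := by exact_mod_cast hn0
  set t : ℝ := (b - a) / n with ht
  have ht0 : 0 < t := div_pos hab hn0
  have htn : t * n = b - a := by
    rw [ht]
    field_simp
  have ht2 : 2 * t < δ := by
    rw [div_lt_iff₀ hδ] at hn
    rw [ht, ← mul_div_assoc, div_lt_iff₀ hn0]
    linarith
  obtain ⟨j, hj, hmin⟩ := Finset.exists_min_image (Finset.range n)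
    (fun i => μ.real (Set.Icc (a + i * t) (a + (i + 1) * t))) ⟨0, Finset.mem_range.mpr hnpos⟩
  refine ⟨μ.real (Set.Icc (a + j * t) (a + (j + 1) * t)), ?_, ?_⟩
  · rw [Finset.mem_range] at hj
    have hj' : (j : ℝ) + 1 ≤ n := by exact_mod_cast hj
    have hpos := h.pos (a + j * t) (a + (j + 1) * t) (by
        have : 0 ≤ (j : ℝ) * t := by positivity
        linarith) (by nlinarith) (by
        have : ((j : ℝ) + 1) * t ≤ n * t := mul_le_mul_of_nonneg_right hj' ht0.le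
        linarith)
    exact ENNReal.toReal_pos hpos.ne' (measure_ne_top μ _)
  · intro x y hx hxy hy
    have h0 : 0 ≤ (x - a) / t := div_nonneg (sub_nonneg.mpr hx) ht0.le
    have h1 := Nat.le_ceil ((x - a) / t)
    have h2 := Nat.ceil_lt_add_one h0
    rw [div_le_iff₀ ht0] at h1
    have h3 : (⌈(x - a) / t⌉₊ : ℝ) * t < x - a + t := by
      have h4 := mul_lt_mul_of_pos_right h2 ht0
      rw [add_mul, one_mul, div_mul_cancel₀ _ ht0.ne'] at h4
      exact h4
    have h5 : ⌈(x - a) / t⌉₊ ∈ Finset.range n := by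
      rw [Finset.mem_range]
      by_contra hcon
      have h6 : (n : ℝ) ≤ ⌈(x - a) / t⌉₊ := by exact_mod_cast not_lt.mp hcon
      have h7 : (n : ℝ) * t ≤ (⌈(x - a) / t⌉₊ : ℝ) * t := mul_le_mul_of_nonneg_right h6 ht0.le
      linarith
    refine le_trans (hmin _ h5) ?_
    refine measureReal_mono ?_ (measure_ne_top μ _)
    refine Set.Icc_subset_Icc ?_ ?_
    · linarith
    · have : ((⌈(x - a) / t⌉₊ : ℝ) + 1) * t = (⌈(x - a) / t⌉₊ : ℝ) * t + t := by ring
      linarith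

theorem t_UNI : S_UNI := by
  intro μ a b h
  exact ⟨fun ε hε => part1 μ a b h ε hε, fun δ hδ => part2 μ a b h δ hδ⟩

end Pool.Agent.H358.MW.UNI
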